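import Pool.Agent.Lib.MP_28303a_al.NT.Lab

/-! # The complexes with new locations -/

set_option autoImplicit false
set_option linter.unusedSectionVars false
set_option linter.unusedVariables false

namespace Pool.Agent.NegK.NT

universe u

open CategoryTheory Limits

section

variable {Γ : Type u} [Group Γ] {T : Sys Γ} {S J : Finset (Fin T.m)} {k : Type u} [Ring k]

namespace Sys

/-- The objects of `L_j` of the complex with new locations. -/
abbrev Lab.lX (Λ : T.Lab S J k) (i : Fin T.m) (l : Λ.β → T.B i) (S' : Finset (Fin T.m))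
    (j : Fin T.m) (n : ℤ) : Loc k (T.P (S'.erase j)) :=
  Loc.tr (T.fg (S'.erase_subset j)) (Λ.rX i l S' n)

theorem Lab.csp' (Λ : T.Lab S J k) (i : Fin T.m) (l : Λ.β → T.B i)
    (S' : Finset (Fin T.m)) (hS : S' ⊆ insert i S) (hi : i ∉ J) (j : Fin T.m) (hj : j ∈ J)
    (n n' : ℤ) :
    Loc.Spt (Λ.lX i l S' j n) (Λ.lX i l S' j n') (Λ.c j n n') := by
  intro x y g hg a ha
  obtain ⟨rfl, hπ, -, h⟩ := Λ.csp j hj n n' x y g hg
  rw [one_smul]
  show Function.update ((Λ.E.X n).loc x) i (l (Λ.π n x)) a ≤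
    Function.update ((Λ.E.X n').loc y) i (l (Λ.π n' y)) a
  by_cases hai : a = i
  · subst hai
    rw [Function.update_self, Function.update_self, hπ]
  · rw [Function.update_of_ne hai, Function.update_of_ne hai]
    exact h a (Finset.mem_of_mem_insert_of_ne (hS (Finset.mem_of_mem_erase ha)) hai)
      (Finset.ne_of_mem_erase ha)

open Classical in
/-- The null-homotopy. -/
noncomputable def Lab.hh (Λ : T.Lab S J k) (i : Fin T.m) (l : Λ.β → T.B i)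
    (S' : Finset (Fin T.m)) (hS : S' ⊆ insert i S) (hi : i ∉ J) (j : Fin T.m) (hj : j ∈ J)
    (n n' : ℤ) : Λ.lX i l S' j n ⟶ Λ.lX i l S' j n' :=
  if n' + 1 = n then Loc.hm (Λ.c j n n') (Λ.csp' i l S' hS hi j hj n n') else 0

theorem Lab.hh_eq (Λ : T.Lab S J k) (i : Fin T.m) (l : Λ.β → T.B i)
    (S' : Finset (Fin T.m)) (hS : S' ⊆ insert i S) (hi : i ∉ J) (j : Fin T.m) (hj : j ∈ J)
    {n n' : ℤ} (h : n' + 1 = n) : Loc.lin (Λ.hh i l S' hS hi j hj n n') = Λ.c j n n' := by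
  rw [Lab.hh, if_pos h]
  rfl

theorem Lab.hh_zero (Λ : T.Lab S J k) (i : Fin T.m) (l : Λ.β → T.B i)
    (S' : Finset (Fin T.m)) (hS : S' ⊆ insert i S) (hi : i ∉ J) (j : Fin T.m) (hj : j ∈ J)
    {n n' : ℤ} (h : ¬ n' + 1 = n) : Λ.hh i l S' hS hi j hj n n' = 0 := by
  rw [Lab.hh, if_neg h]

/-- The complex `L_j` of the complex with new locations. -/
noncomputable abbrev Lab.lC (Λ : T.Lab S J k) (i : Fin T.m) (l : Λ.β → T.B i) (hl : Λ.Ok i l)
    (S' : Finset (Fin T.m)) (hS : S' ⊆ insert i S) (j : Fin T.m) :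
    CochainComplex (Loc k (T.P (S'.erase j))) ℤ :=
  ((Loc.push (T.fg (S'.erase_subset j))).mapHomologicalComplex (ComplexShape.up ℤ)).obj
    (Λ.rl i l hl S' hS)

/-- The null-homotopy, for the complex `L_j`. -/
noncomputable def Lab.hf (Λ : T.Lab S J k) (i : Fin T.m) (l : Λ.β → T.B i) (hl : Λ.Ok i l)
    (S' : Finset (Fin T.m)) (hS : S' ⊆ insert i S) (hi : i ∉ J) (j : Fin T.m) (hj : j ∈ J)
    (n n' : ℤ) : (Λ.lC i l hl S' hS j).X n ⟶ (Λ.lC i l hl S' hS j).X n' :=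
  Λ.hh i l S' hS hi j hj n n'

theorem Lab.hf_zero (Λ : T.Lab S J k) (i : Fin T.m) (l : Λ.β → T.B i) (hl : Λ.Ok i l)
    (S' : Finset (Fin T.m)) (hS : S' ⊆ insert i S) (hi : i ∉ J) (j : Fin T.m) (hj : j ∈ J)
    (n n' : ℤ) (h : ¬ (ComplexShape.up ℤ).Rel n' n) : Λ.hf i l hl S' hS hi j hj n n' = 0 := by
  have h' : ¬ n' + 1 = n := h
  refine Loc.hom_ext ?_
  exact congrArg Loc.lin (Λ.hh_zero i l S' hS hi j hj h')

theorem Lab.hf_comm (Λ : T.Lab S J k) (i : Fin T.m) (l : Λ.β → T.B i) (hl : Λ.Ok i l)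
    (S' : Finset (Fin T.m)) (hS : S' ⊆ insert i S) (hi : i ∉ J) (j : Fin T.m) (hj : j ∈ J)
    (n : ℤ) : (𝟙 (Λ.lC i l hl S' hS j) : Λ.lC i l hl S' hS j ⟶ Λ.lC i l hl S' hS j).f n =
      dNext n (Λ.hf i l hl S' hS hi j hj) + prevD n (Λ.hf i l hl S' hS hi j hj) +
        (0 : Λ.lC i l hl S' hS j ⟶ Λ.lC i l hl S' hS j).f n := by
  have h1 : (ComplexShape.up ℤ).Rel n (n + 1) := rfl
  have h2 : (ComplexShape.up ℤ).Rel (n - 1) n := sub_add_cancel n 1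
  have h3 := Λ.cd j hj (n - 1) n (n + 1) (sub_add_cancel n 1) rfl
  have h4 : Loc.lin (Λ.hf i l hl S' hS hi j hj (n + 1) n) = Λ.c j (n + 1) n :=
    Λ.hh_eq i l S' hS hi j hj rfl
  have h5 : Loc.lin (Λ.hf i l hl S' hS hi j hj n (n - 1)) = Λ.c j n (n - 1) :=
    Λ.hh_eq i l S' hS hi j hj (sub_add_cancel n 1)
  have h6 : Loc.lin ((Λ.lC i l hl S' hS j).d n (n + 1)) = Loc.lin (Λ.E.d n (n + 1)) := rfl
  have h7 : Loc.lin ((Λ.lC i l hl S' hS j).d (n - 1) n) = Loc.lin (Λ.E.d (n - 1) n) := rfl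
  rw [dNext_eq _ h1, prevD_eq _ h2, HomologicalComplex.zero_f, add_zero, HomologicalComplex.id_f]
  refine Loc.hom_ext ?_
  rw [Loc.lin_add, Loc.lin_comp, Loc.lin_comp, Loc.lin_id, h4, h5, h6, h7]
  exact h3.symm.trans (add_comm _ _)

/-- The null-homotopy of the identity of `L_j`. -/
noncomputable def Lab.hty (Λ : T.Lab S J k) (i : Fin T.m) (l : Λ.β → T.B i) (hl : Λ.Ok i l)
    (S' : Finset (Fin T.m)) (hS : S' ⊆ insert i S) (hi : i ∉ J) (j : Fin T.m) (hj : j ∈ J) :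
    Homotopy (𝟙 (Λ.lC i l hl S' hS j)) 0 where
  hom := Λ.hf i l hl S' hS hi j hj
  zero := Λ.hf_zero i l hl S' hS hi j hj
  comm := Λ.hf_comm i l hl S' hS hi j hj

end Sys

end

/-- RLJ: the complexes with new locations are in `P_{S'}^J`. -/
theorem rlj {Γ : Type u} [Group Γ] (T : Sys Γ) : T.RLJ := by
  intro S J k _ Λ i l hl S' hS hi
  refine ⟨⟨Λ.rl i l hl S' hS, ⟨fun n => Λ.fin.fin n, Λ.fin.bdd⟩, ⟨Retract.refl _⟩⟩, ?_⟩
  intro j hj
  exact (HomotopyCategory.isZero_quotient_obj_iff (Λ.lC i l hl S' hS j)).2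
    ⟨Λ.hty i l hl S' hS hi j hj⟩

end Pool.Agent.NegK.NT
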